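import Pool.Agent.X7.Pseudo.Three

/-!
# Orders of pseudo k-regular graphs

The answer to the question is no: for `k = 16` there is a connected pseudo 16-regular graph on 19
vertices, but none on 20 vertices.
-/

namespace Pool.Agent.Results.MP_1ed35b_co.OrderGap

open Finset
open scoped Classical in
/-- The average 2-degree `m_i`: the mean degree of the neighbours of `i`. -/
noncomputable def meanNbrDegree {V : Type} [Fintype V] (G : SimpleGraph V) (i : V) : ℚ :=
  (∑ j ∈ G.neighborFinset i, (G.degree j : ℚ)) / (G.degree i : ℚ)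

open scoped Classical in
/-- Connected pseudo `k`-regular graphs: connected, at least two vertices, `m_i = k` for every
vertex `i`, and the degrees are not all equal. -/
def PseudoRegular {V : Type} [Fintype V] (k : ℕ) (G : SimpleGraph V) : Prop :=
  G.Connected ∧ 2 ≤ Fintype.card V ∧ (∀ i, meanNbrDegree G i = (k : ℚ)) ∧
    ¬ ∃ r : ℕ, ∀ i, G.degree i = r

/-- `N(k)`: the least number of vertices of a connected pseudo `k`-regular graph. -/
noncomputable def leastOrder (k : ℕ) : ℕ :=
  sInf {n : ℕ | ∃ G : SimpleGraph (Fin n), PseudoRegular k G}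

open scoped Classical in
lemma sum_of_mean {V : Type} [Fintype V] (G : SimpleGraph V) (i : V)
    (h : meanNbrDegree G i = ((16 : ℕ) : ℚ)) :
    1 ≤ G.degree i ∧ ∑ j ∈ G.neighborFinset i, (G.degree j : ℤ) = 16 * (G.degree i : ℤ) := by
  unfold meanNbrDegree at h
  have hne : (G.degree i : ℚ) ≠ 0 := by
    intro h0
    rw [h0, div_zero] at h
    norm_num at h
  have h1 : 1 ≤ G.degree i := by
    have : G.degree i ≠ 0 := by exact_mod_cast hne
    omega
  refine ⟨h1, ?_⟩
  rw [div_eq_iff hne] at h
  exact_mod_cast h

open scoped Classical in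
lemma none_twenty (G : SimpleGraph (Fin 20)) (hG : PseudoRegular 16 G) : False := by
  obtain ⟨-, -, hm, hnr⟩ := hG
  have hd := fun i => sum_of_mean G i (hm i)
  have hNeq : ∀ i, univ.filter (fun j => j ≠ i ∧ ¬ G.Adj i j) =
      univ \ (insert i (G.neighborFinset i)) := by
    intro i
    ext j
    simp [SimpleGraph.mem_neighborFinset]
  have hsplit : ∀ (i : Fin 20) (f : Fin 20 → ℤ), ∑ j ∈ univ.filter (fun j => j ≠ i ∧ ¬ G.Adj i j), f j
      = ∑ j, f j - f i - ∑ j ∈ G.neighborFinset i, f j := by
    intro i f
    rw [hNeq]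
    have h1 := Finset.sum_sdiff (f := f) (subset_univ (insert i (G.neighborFinset i)))
    rw [Finset.sum_insert (by simp)] at h1
    linarith
  have hsumdeg : (∑ i, (G.degree i : ℤ)) % 2 = 0 := by
    have := G.sum_degrees_eq_twice_card_edges
    have h2 : (∑ i, (G.degree i : ℤ)) = 2 * (G.edgeFinset.card : ℤ) := by exact_mod_cast this
    omega
  have htot : ∑ i : Fin 20, (17 - (G.degree i : ℤ)) = 340 - ∑ i, (G.degree i : ℤ) := by
    rw [Finset.sum_sub_distrib]; simp
  refine Pool.Agent.X7.Pseudo.Sys.absurd_sys
    { N := fun i => univ.filter (fun j => j ≠ i ∧ ¬ G.Adj i j)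
      x := fun i => 17 - (G.degree i : ℤ)
      s := ∑ i : Fin 20, (17 - (G.degree i : ℤ)) - 17
      symm := ?_
      irr := ?_
      deg := ?_
      sum := ?_
      tot := ?_
      le16 := ?_
      nr := ?_
      odd := ?_ }
  · intro i j hj
    simp only [mem_filter, mem_univ, true_and] at hj ⊢
    exact ⟨hj.1.symm, fun h => hj.2 h.symm⟩
  · intro i; simp
  · intro i
    have h1 := hsplit i (fun _ => 1)
    simp only [sum_const, nsmul_eq_mul, mul_one, card_univ, Fintype.card_fin,
      SimpleGraph.card_neighborFinset_eq_degree] at h1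
    rw [h1]; push_cast; ring
  · intro i
    rw [hsplit i (fun j => 17 - (G.degree j : ℤ)), Finset.sum_sub_distrib (s := G.neighborFinset i),
      (hd i).2]
    simp only [sum_const, nsmul_eq_mul, SimpleGraph.card_neighborFinset_eq_degree]
    ring
  · ring
  · intro i
    have := (hd i).1
    omega
  · by_contra hc
    push Not at hc
    apply hnr
    refine ⟨16, fun i => ?_⟩
    have := hc i
    omega
  · rw [htot]; omega

/-- Edges of the complement of the example on 19 vertices (a double star, two triangles sharing a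
vertex, and a complete graph on four vertices minus an edge). -/
def edgesH : List (Fin 19 × Fin 19) :=
  [(0, 1), (0, 2), (0, 3), (0, 4), (0, 5), (1, 6), (1, 7), (1, 8), (1, 9),
   (10, 11), (10, 12), (11, 12), (10, 13), (10, 14), (13, 14),
   (15, 16), (15, 17), (15, 18), (16, 17), (16, 18)]

def adjB (i j : Fin 19) : Bool :=
  decide (i ≠ j) && !(edgesH.contains (i, j)) && !(edgesH.contains (j, i))

def G19 : SimpleGraph (Fin 19) where
  Adj i j := adjB i j = true
  symm := ⟨by decide +kernel⟩
  loopless := ⟨by decide +kernel⟩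

def dg (i : Fin 19) : ℕ := (univ.filter (fun j => adjB i j = true)).card

open scoped Classical in
lemma nbr_eq (i : Fin 19) : G19.neighborFinset i = univ.filter (fun j => adjB i j = true) := by
  ext j
  simp only [SimpleGraph.mem_neighborFinset, mem_filter, mem_univ, true_and]
  rfl

open scoped Classical in
lemma deg_eq (i : Fin 19) : G19.degree i = dg i := by
  rw [← SimpleGraph.card_neighborFinset_eq_degree, nbr_eq, dg]

lemma sums : ∀ i : Fin 19, ∑ j ∈ univ.filter (fun j => adjB i j = true), dg j = 16 * dg i := by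
  decide +kernel

lemma dg_pos : ∀ i : Fin 19, 0 < dg i := by decide +kernel

lemma paths : ∀ i j : Fin 19, ∃ k : Fin 19, (k = i ∨ adjB i k = true) ∧ (k = j ∨ adjB k j = true) := by
  decide +kernel

lemma pseudo19 : PseudoRegular 16 G19 := by
  refine ⟨?_, by simp, ?_, ?_⟩
  · rw [SimpleGraph.connected_iff]
    refine ⟨fun i j => ?_, ⟨0⟩⟩
    obtain ⟨k, h1, h2⟩ := paths i j
    have r1 : G19.Reachable i k := by
      rcases h1 with rfl | h
      · exact SimpleGraph.Reachable.refl _
      · exact SimpleGraph.Adj.reachable (G := G19) h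
    have r2 : G19.Reachable k j := by
      rcases h2 with rfl | h
      · exact SimpleGraph.Reachable.refl _
      · exact SimpleGraph.Adj.reachable (G := G19) h
    exact r1.trans r2
  · intro i
    unfold meanNbrDegree
    simp only [deg_eq, nbr_eq]
    rw [div_eq_iff (by exact_mod_cast (dg_pos i).ne')]
    exact_mod_cast sums i
  · rintro ⟨r, hr⟩
    have h0 := hr 0
    have h1 := hr 2
    rw [deg_eq] at h0 h1
    rw [← h0] at h1
    revert h1
    decide +kernel

/-- There is a connected pseudo 16-regular graph on 19 vertices, none on 20 vertices; hence it is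
not true that for all `k ≥ 5` and `n ≥ N(k)` there is a connected pseudo `k`-regular graph on `n`
vertices. -/
theorem result :
    (∃ G : SimpleGraph (Fin 19), PseudoRegular 16 G) ∧
    (¬ ∃ G : SimpleGraph (Fin 20), PseudoRegular 16 G) ∧
    ¬ (∀ k n : ℕ, 5 ≤ k → leastOrder k ≤ n → ∃ G : SimpleGraph (Fin n), PseudoRegular k G) := by
  have h1 : ∃ G : SimpleGraph (Fin 19), PseudoRegular 16 G := ⟨G19, pseudo19⟩
  have h2 : ¬ ∃ G : SimpleGraph (Fin 20), PseudoRegular 16 G := fun ⟨G, hG⟩ => none_twenty G hG
  refine ⟨h1, h2, fun h => h2 (h 16 20 (by norm_num) ?_)⟩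
  have : leastOrder 16 ≤ 19 := Nat.sInf_le h1
  omega

end Pool.Agent.Results.MP_1ed35b_co.OrderGap
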